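import Pool.Agent.Work.MP_567c26_al_helper68.Rel1

/-!
# Block REL: the padded languages of the normal forms are regular
-/

set_option linter.unusedVariables false
set_option linter.unusedSectionVars false
set_option linter.style.haveILetI false

namespace Pool.Agent.Work.MP_567c26_al_helper68

open Pool.Agent.Work.MP_567c26_al Pool.Agent.Work.MP_567c26_al.V2

section
variable {K : Type} (f : List K → Option (List K)) (H : List K → Prop) (x0 : List K)
  (W : List K → Prop)

/-- The part of the padded language of the multiplication by `b` coming from the elements of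
`T`. -/
def PR (T : SgD K → Prop) (b : Option (Lt K)) : Prop :=
  Language.IsRegular ({w | ∃ s, T s ∧ w = pad (nf W s) (nf W (mg f H x0 b s))} :
    Language (Option (Option (Lt K)) × Option (Option (Lt K))))

variable {f H x0 W} {T T' : SgD K → Prop} {b : Option (Lt K)}

theorem pr_or (h : PR f H x0 W T b) (h' : PR f H x0 W T' b) :
    PR f H x0 W (fun s => T s ∨ T' s) b := by
  refine reg_congr (reg_or h h') fun w => ?_
  constructor
  · rintro (⟨s, hs, e⟩ | ⟨s, hs, e⟩)
    · exact ⟨s, Or.inl hs, e⟩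
    · exact ⟨s, Or.inr hs, e⟩
  · rintro ⟨s, hs | hs, e⟩
    · exact Or.inl ⟨s, hs, e⟩
    · exact Or.inr ⟨s, hs, e⟩

theorem pr_congr (h : PR f H x0 W T b) (e : ∀ s, T s ↔ T' s) : PR f H x0 W T' b :=
  reg_congr h fun w => by
    constructor
    · rintro ⟨s, hs, h⟩
      exact ⟨s, (e s).1 hs, h⟩
    · rintro ⟨s, hs, h⟩
      exact ⟨s, (e s).2 hs, h⟩

theorem pr_biUnion {X : List K → Prop} (hX : {x | X x}.Finite) {T : List K → SgD K → Prop}
    (h : ∀ x, X x → PR f H x0 W (T x) b) : PR f H x0 W (fun s => ∃ x, X x ∧ T x s) b := by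
  refine reg_congr (reg_biUnion hX _ fun x hx => h x hx) fun w => ?_
  constructor
  · rintro ⟨x, hx, s, hs, e⟩
    exact ⟨s, ⟨x, hx, hs⟩, e⟩
  · rintro ⟨s, ⟨x, hx, hs⟩, e⟩
    exact ⟨x, hx, s, hs, e⟩

theorem pr_const (hT : NR W T) (h : ∀ s, T s → mg f H x0 b s = .pt root) :
    PR f H x0 W T b := by
  refine reg_congr (reg_pad_const none hT) fun w => ?_
  constructor
  · rintro ⟨_, ⟨s, hs, rfl⟩, rfl⟩
    exact ⟨s, hs, by rw [h s hs, nf_root]⟩
  · rintro ⟨s, hs, rfl⟩
    exact ⟨_, ⟨s, hs, rfl⟩, by rw [h s hs, nf_root]⟩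

theorem pr_map (φ : Option (Lt K) → Option (Lt K)) (y : List (Option (Lt K))) (hT : NR W T)
    (h : ∀ s, T s → nf W (mg f H x0 b s) = (nf W s).map φ ++ y) : PR f H x0 W T b := by
  refine reg_congr (reg_pad_map φ y hT) fun w => ?_
  constructor
  · rintro ⟨_, ⟨s, hs, rfl⟩, rfl⟩
    exact ⟨s, hs, by rw [h s hs]⟩
  · rintro ⟨s, hs, rfl⟩
    exact ⟨_, ⟨s, hs, rfl⟩, by rw [h s hs]⟩

theorem pr_app (y : List (Option (Lt K))) (hT : NR W T)
    (h : ∀ s, T s → nf W (mg f H x0 b s) = nf W s ++ y) : PR f H x0 W T b :=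
  pr_map id y hT fun s hs => by rw [List.map_id]; exact h s hs

theorem pr_run {σ : Type} [Finite σ] (δ : σ → Option (Lt K) → σ)
    (out : σ → Option (Lt K) → Option (Option (Lt K))) (fin : σ → List (Option (Lt K))) (s0 : σ)
    (hT : NR W T)
    (h : ∀ s, T s → pad (nf W s) (nf W (mg f H x0 b s)) = run δ out fin s0 (nf W s)) :
    PR f H x0 W T b := by
  refine reg_congr (reg_run δ out fin s0 hT) fun w => ?_
  constructor
  · rintro ⟨_, ⟨s, hs, rfl⟩, rfl⟩
    exact ⟨s, hs, (h s hs).symm⟩
  · rintro ⟨s, hs, rfl⟩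
    exact ⟨_, ⟨s, hs, rfl⟩, h s hs⟩

theorem pr_lag (u x v y : List (Option (Lt K))) (a : Option (Lt K)) (F : ℕ → SgD K)
    (h1 : ∀ k, nf W (F k) = u ++ List.replicate k a ++ x)
    (h2 : ∀ k, nf W (mg f H x0 b (F k)) = v ++ List.replicate k a ++ y) :
    PR f H x0 W (fun s => ∃ k, s = F k) b := by
  refine reg_congr (reg_pad_lag u x v y a) fun w => ?_
  constructor
  · rintro ⟨k, rfl⟩
    exact ⟨_, ⟨k, rfl⟩, by rw [h1, h2]⟩
  · rintro ⟨_, ⟨k, rfl⟩, rfl⟩
    exact ⟨k, by rw [h1, h2]⟩

theorem pr_all (h1 : PR f H x0 W (fun s => ∃ a l, s = .fr a l) b)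
    (h2 : PR f H x0 W (fun s => ∃ x k, True ∧ s = .pt (.P x k)) b)
    (h3 : PR f H x0 W (fun s => ∃ x k, ¬ W x ∧ s = .pt (.M x k)) b)
    (h4 : PR f H x0 W (fun s => ∃ x k, W x ∧ s = .pt (.M x k)) b) :
    (mulLang (gl f H x0) (Lw W) b).IsRegular := by
  refine reg_congr (pr_or h1 (pr_or h2 (pr_or h3 h4))) fun w => ?_
  rw [mulLang_iff]
  constructor
  · rintro ⟨s, -, e⟩
    exact ⟨s, e⟩
  · rintro ⟨s, e⟩
    refine ⟨s, ?_, e⟩
    rcases s with ⟨a, l⟩ | ⟨x, k⟩ | ⟨x, k⟩
    · exact Or.inl ⟨a, l, rfl⟩
    · exact Or.inr (Or.inl ⟨x, k, trivial, rfl⟩)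
    · by_cases h : W x
      · exact Or.inr (Or.inr (Or.inr ⟨x, k, h, rfl⟩))
      · exact Or.inr (Or.inr (Or.inl ⟨x, k, h, rfl⟩))

variable [Finite K]

/-! ### Words -/

theorem piece_F (b : Option (Lt K)) : PR f H x0 W (fun s => ∃ a l, s = .fr a l) b := by
  cases b with
  | none => exact pr_const nr_F fun s _ => rfl
  | some b =>
    refine pr_app [some b] nr_F ?_
    rintro _ ⟨a, l, rfl⟩
    simp [mg, nf]

/-! ### Vertices `P x k` -/

theorem P_split : (∀ s : SgD K, (∃ x, True ∧ s = .pt (.P x 0)) ∨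
    (∃ x k, True ∧ s = .pt (.P x (k + 1))) ↔ ∃ x k, True ∧ s = .pt (.P x k)) := by
  intro s
  constructor
  · rintro (⟨x, -, e⟩ | ⟨x, k, -, e⟩)
    · exact ⟨x, 0, trivial, e⟩
    · exact ⟨x, k + 1, trivial, e⟩
  · rintro ⟨x, k, -, e⟩
    cases k with
    | zero => exact Or.inl ⟨x, trivial, e⟩
    | succ k => exact Or.inr ⟨x, k, trivial, e⟩

theorem P_split' (X : List K → Prop) : (∀ s : SgD K, (∃ x k, X x ∧ s = .pt (.P x k)) ∨
    (∃ x k, ¬ X x ∧ s = .pt (.P x k)) ↔ ∃ x k, True ∧ s = .pt (.P x k)) := by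
  intro s
  constructor
  · rintro (⟨x, k, -, e⟩ | ⟨x, k, -, e⟩)
    · exact ⟨x, k, trivial, e⟩
    · exact ⟨x, k, trivial, e⟩
  · rintro ⟨x, k, -, e⟩
    by_cases h : X x
    · exact Or.inl ⟨x, k, h, e⟩
    · exact Or.inr ⟨x, k, h, e⟩

theorem piece_P_const (b : Option (Lt K)) (h : ∀ x k, mg f H x0 b (.pt (.P x k)) = .pt root) :
    PR f H x0 W (fun s => ∃ x k, True ∧ s = .pt (.P x k)) b :=
  pr_const (nr_P reg_top) (by rintro _ ⟨x, k, -, rfl⟩; exact h x k)

theorem piece_P_s (a : K) :
    PR f H x0 W (fun s => ∃ x k, True ∧ s = .pt (.P x k)) (some (.s a)) := by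
  refine pr_congr (pr_or (pr_app [some (.s a)] (nr_P0 (X := fun _ => True) reg_top) ?_)
    (pr_const (nr_P1 (X := fun _ => True) reg_top) ?_)) P_split
  · rintro _ ⟨x, -, rfl⟩
    have : mg f H x0 (some (.s a)) (.pt (.P x 0)) = .pt (.P (x ++ [a]) 0) := by simp [mg, act]
    rw [this, nf_P, nf_P]
    simp [nP, emb]
  · rintro _ ⟨x, k, -, rfl⟩
    simp [mg, act]

theorem nf_M0 (x : List K) : nf W (.pt (.M x 0)) = none :: (emb x ++ [some Lt.q]) := by
  by_cases h : W x
  · rw [nf_W W h]; simp [nW]
  · rw [nf_M W h]; simp [nM]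

theorem piece_P_q :
    PR f H x0 W (fun s => ∃ x k, True ∧ s = .pt (.P x k)) (some .q) := by
  refine pr_congr (pr_or (pr_app [some .q] (nr_P0 (X := fun _ => True) reg_top) ?_)
    (pr_const (nr_P1 (X := fun _ => True) reg_top) ?_)) P_split
  · rintro _ ⟨x, -, rfl⟩
    have : mg f H x0 (some .q) (.pt (.P x 0)) = .pt (.M x 0) := by simp [mg, act]
    rw [this, nf_P, nf_M0]
    simp [nP, emb]
  · rintro _ ⟨x, k, -, rfl⟩
    simp [mg, act]

theorem piece_P_i :
    PR f H x0 W (fun s => ∃ x k, True ∧ s = .pt (.P x k)) (some .i) := by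
  refine pr_app [some .i] (nr_P reg_top) ?_
  rintro _ ⟨x, k, -, rfl⟩
  have : mg f H x0 (some .i) (.pt (.P x k)) = .pt (.P x (k + 1)) := rfl
  rw [this, nf_P, nf_P]
  simp [nP, List.replicate_succ']

theorem piece_P_g :
    PR f H x0 W (fun s => ∃ x k, True ∧ s = .pt (.P x k)) (some .g) := by
  refine pr_map (fun c => c.map fun _ => Lt.i) [] (nr_P reg_top) ?_
  rintro _ ⟨x, k, -, rfl⟩
  have : mg f H x0 (some .g) (.pt (.P x k)) = .pt (.P [] (x.length + k)) := rfl
  rw [this, nf_P, nf_P]
  unfold nP emb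
  rw [List.append_nil, List.map_cons, List.map_append, List.map_map, List.map_replicate,
    List.map_nil, List.nil_append, List.replicate_add]
  congr 2
  clear this
  induction x with
  | nil => rfl
  | cons a x ih => rw [List.map_cons, List.length_cons, List.replicate_succ, ih]; rfl

/-- The machine for the letter `e`. -/
def eD (st : Bool) (c : Option (Lt K)) : Bool :=
  match c with
  | some .i => true
  | _ => st

def eO (st : Bool) (c : Option (Lt K)) : Option (Option (Lt K)) :=
  match c with
  | some .i => if st then some (some .h) else some (some .q)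
  | c => some c

def eF' (st : Bool) : List (Option (Lt K)) := if st then [some .h] else [some .q]

theorem run_e_true (k : ℕ) : run (eD (K := K)) eO eF' true (List.replicate k (some Lt.i)) =
    pad (List.replicate k (some Lt.i)) (List.replicate (k + 1) (some Lt.h)) := by
  induction k with
  | zero => rfl
  | succ k ih =>
    rw [List.replicate_succ, run, List.replicate_succ (n := k + 1), pad_cons_cons]
    change _ :: run (eD (K := K)) eO eF' true _ = _
    rw [ih]
    rfl

theorem run_e_false (k : ℕ) : run (eD (K := K)) eO eF' false (List.replicate k (some Lt.i)) =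
    pad (List.replicate k (some Lt.i)) (some Lt.q :: List.replicate k (some Lt.h)) := by
  cases k with
  | zero => rfl
  | succ k =>
    rw [List.replicate_succ, run, pad_cons_cons]
    change _ :: run (eD (K := K)) eO eF' true _ = _
    rw [run_e_true]
    rfl

theorem run_e (x : List K) (u v : List (Option (Lt K)))
    (h : run (eD (K := K)) eO eF' false u = pad u v) :
    run (eD (K := K)) eO eF' false (emb x ++ u) = pad (emb x ++ u) (emb x ++ v) := by
  induction x with
  | nil => exact h
  | cons a x ih =>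
    change (some (some (Lt.s a)), _) :: run (eD (K := K)) eO eF' false (emb x ++ u) =
      pad (some (Lt.s a) :: (emb x ++ u)) (some (Lt.s a) :: (emb x ++ v))
    rw [pad_cons_cons, ih]
    rfl

theorem piece_P_e (hH : Language.IsRegular ({x | H x} : Language K)) (hHW : ∀ x, H x → ¬ W x) :
    PR f H x0 W (fun s => ∃ x k, True ∧ s = .pt (.P x k)) (some .e) := by
  refine pr_congr (pr_or (pr_run eD eO eF' false (nr_P hH) ?_)
    (pr_const (nr_P (X := fun x => ¬ H x) (reg_not hH)) ?_)) (P_split' H)
  · rintro _ ⟨x, k, hx, rfl⟩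
    have : mg f H x0 (some .e) (.pt (.P x k)) = .pt (.M x k) := by simp [mg, act, hx]
    rw [this, nf_P, nf_M W (hHW x hx)]
    unfold nP nM
    rw [pad_cons_cons, ← run_e x _ _ (run_e_false k)]
    rfl
  · rintro _ ⟨x, k, hx, rfl⟩
    simp [mg, act, hx]

theorem piece_P_d (hx0 : W x0) :
    PR f H x0 W (fun s => ∃ x k, True ∧ s = .pt (.P x k)) (some .d) := by
  refine pr_congr (pr_or (T := fun s => ∃ k, s = .pt (.P [] k))
    (T' := fun s => ∃ x k, ¬ x = [] ∧ s = .pt (.P x k))
    (pr_lag [none] [] (none :: (emb x0 ++ [some .q])) [] (some .i) (fun k => .pt (.P [] k)) ?_ ?_)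
    (pr_const (nr_P (X := fun x => ¬ x = []) (reg_not reg_one)) ?_)) ?_
  · intro k
    rw [nf_P]
    simp [nP, emb]
  · intro k
    have : mg f H x0 (some .d) (.pt (.P [] k)) = .pt (.M x0 (2 * k)) := by simp [mg, act]
    rw [this, nf_W W hx0]
    have e1 : 2 * k / 2 = k := by omega
    have e2 : 2 * k % 2 = 0 := by omega
    rw [e1, e2]
    simp [nW]
  · rintro _ ⟨x, k, hx, rfl⟩
    simp [mg, act, hx]
  · intro s
    constructor
    · rintro (⟨k, e⟩ | ⟨x, k, -, e⟩)
      · exact ⟨[], k, trivial, e⟩
      · exact ⟨x, k, trivial, e⟩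
    · rintro ⟨x, k, -, e⟩
      by_cases h : x = []
      · subst h
        exact Or.inl ⟨k, e⟩
      · exact Or.inr ⟨x, k, h, e⟩

/-! ### Vertices `M x k` with `x` outside `W` -/

theorem piece_M_const (hW : {x | W x}.Finite) (b : Option (Lt K))
    (h : ∀ x k, mg f H x0 b (.pt (.M x k)) = .pt root) :
    PR f H x0 W (fun s => ∃ x k, ¬ W x ∧ s = .pt (.M x k)) b :=
  pr_const (nr_M (X := fun x => ¬ W x) (reg_notW hW) fun x hx => hx)
    (by rintro _ ⟨x, k, -, rfl⟩; exact h x k)

theorem piece_M_h (hW : {x | W x}.Finite) :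
    PR f H x0 W (fun s => ∃ x k, ¬ W x ∧ s = .pt (.M x k)) (some .h) := by
  refine pr_app [some .h] (nr_M (X := fun x => ¬ W x) (reg_notW hW) fun x hx => hx) ?_
  rintro _ ⟨x, k, hx, rfl⟩
  have : mg f H x0 (some .h) (.pt (.M x k)) = .pt (.M x (k + 1)) := rfl
  rw [this, nf_M W hx, nf_M W hx]
  simp [nM, List.replicate_succ']

theorem piece_M_i (hW : {x | W x}.Finite) :
    PR f H x0 W (fun s => ∃ x k, ¬ W x ∧ s = .pt (.M x k)) (some .i) := by
  refine pr_app [some .h, some .h] (nr_M (X := fun x => ¬ W x) (reg_notW hW) fun x hx => hx) ?_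
  rintro _ ⟨x, k, hx, rfl⟩
  have : mg f H x0 (some .i) (.pt (.M x k)) = .pt (.M x (k + 2)) := rfl
  rw [this, nf_M W hx, nf_M W hx]
  simp [nM, List.replicate_succ']

/-- The states of the machine for the letter `t`. -/
abbrev TS (K : Type) := Option ((K × K) ⊕ (K ⊕ Bool))

/-- The transitions. -/
def tD (bl : K) : TS K → Option (Lt K) → TS K
  | none, none => some (.inl (bl, bl))
  | some (.inl (_, q)), some (.s a) => some (.inl (q, a))
  | some (.inl (_, q)), some .q => some (.inr (.inl q))
  | some (.inr (.inl _)), some .h => some (.inr (.inr false))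
  | some (.inr (.inr _)), some .h => some (.inr (.inr true))
  | _, _ => none

/-- The outputs. -/
def tO (bl : K) (phi : K → K → K → K) : TS K → Option (Lt K) → Option (Option (Lt K))
  | none, none => some none
  | some (.inl (p, q)), some (.s a) => some (some (.s (phi p q a)))
  | some (.inl (p, q)), some .q => some (some (.s (phi p q bl)))
  | some (.inr (.inl q)), some .h => some (some (.s (phi q bl bl)))
  | some (.inr (.inr false)), some .h => some (some .q)
  | some (.inr (.inr true)), some .h => some (some .h)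
  | _, _ => none

/-- The final words. -/
def tF (bl : K) (phi : K → K → K → K) : TS K → List (Option (Lt K))
  | some (.inr (.inl q)) => [some (.s (phi q bl bl)), some .q]
  | some (.inr (.inr false)) => [some .q, some .h]
  | some (.inr (.inr true)) => [some .h, some .h]
  | _ => []

theorem run_t3 (bl : K) (phi : K → K → K → K) (k : ℕ) :
    run (tD bl) (tO bl phi) (tF bl phi) (some (.inr (.inr true)))
      (List.replicate k (some Lt.h)) =
    pad (List.replicate k (some Lt.h)) (List.replicate (k + 2) (some Lt.h)) := by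
  induction k with
  | zero => rfl
  | succ k ih =>
    rw [List.replicate_succ, run, List.replicate_succ (n := k + 2), pad_cons_cons, ← ih]
    rfl

theorem run_t2 (bl : K) (phi : K → K → K → K) (k : ℕ) :
    run (tD bl) (tO bl phi) (tF bl phi) (some (.inr (.inr false)))
      (List.replicate k (some Lt.h)) =
    pad (List.replicate k (some Lt.h)) (some Lt.q :: List.replicate (k + 1) (some Lt.h)) := by
  cases k with
  | zero => rfl
  | succ k =>
    rw [List.replicate_succ, run, pad_cons_cons, ← run_t3 bl phi]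
    rfl

theorem run_t1 (bl : K) (phi : K → K → K → K) (q : K) (k : ℕ) :
    run (tD bl) (tO bl phi) (tF bl phi) (some (.inr (.inl q)))
      (List.replicate k (some Lt.h)) =
    pad (List.replicate k (some Lt.h))
      (some (Lt.s (phi q bl bl)) :: some Lt.q :: List.replicate k (some Lt.h)) := by
  cases k with
  | zero => rfl
  | succ k =>
    rw [List.replicate_succ, run, pad_cons_cons, ← List.replicate_succ, ← run_t2 bl phi]
    rfl

theorem run_t0 (bl : K) (phi : K → K → K → K) (x : List K) (p q : K) (k : ℕ) :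
    run (tD bl) (tO bl phi) (tF bl phi) (some (.inl (p, q)))
      (emb x ++ some Lt.q :: List.replicate k (some Lt.h)) =
    pad (emb x ++ some Lt.q :: List.replicate k (some Lt.h))
      (emb (win phi p q (x ++ [bl, bl])) ++ some Lt.q :: List.replicate k (some Lt.h)) := by
  induction x generalizing p q with
  | nil =>
    change (some (some Lt.q), some (some (Lt.s (phi p q bl)))) ::
      run (tD bl) (tO bl phi) (tF bl phi) (some (.inr (.inl q)))
        (List.replicate k (some Lt.h)) =
      pad (some Lt.q :: List.replicate k (some Lt.h))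
      (some (Lt.s (phi p q bl)) :: (some (Lt.s (phi q bl bl)) ::
        some Lt.q :: List.replicate k (some Lt.h)))
    rw [pad_cons_cons, run_t1]
  | cons a x ih =>
    change (some (some (Lt.s a)), some (some (Lt.s (phi p q a)))) ::
      run (tD bl) (tO bl phi) (tF bl phi) (some (.inl (q, a)))
        (emb x ++ some Lt.q :: List.replicate k (some Lt.h)) =
      pad (some (Lt.s a) :: (emb x ++ some Lt.q :: List.replicate k (some Lt.h)))
      (some (Lt.s (phi p q a)) :: (emb (win phi q a (x ++ [bl, bl])) ++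
        some Lt.q :: List.replicate k (some Lt.h)))
    rw [pad_cons_cons, ih]

end

section
variable {K : Type} [Finite K] (bl : K) (phi : K → K → K → K) (halt bad : K → Bool)
  {x0 : List K} {W : List K → Prop} {H : List K → Prop}

theorem reg_ok : Language.IsRegular ({x | ∀ s ∈ x, halt s = false} : Language K) := reg_all _

theorem piece_M_t (hW : {x | W x}.Finite) (hc : Closed (stepH bl phi halt) W) :
    PR (stepH bl phi halt) H x0 W (fun s => ∃ x k, ¬ W x ∧ s = .pt (.M x k)) (some .t) := by
  have hA : Language.IsRegular ({x | ¬ W x ∧ ∀ s ∈ x, halt s = false} : Language K) :=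
    reg_and (reg_notW hW) (reg_ok halt)
  have hB : Language.IsRegular ({x | ¬ W x ∧ ¬ ∀ s ∈ x, halt s = false} : Language K) :=
    reg_and (reg_notW hW) (reg_not (reg_ok halt))
  refine pr_congr (pr_or (pr_run (tD bl) (tO bl phi) (tF bl phi) none
    (nr_M hA fun x hx => hx.1) ?_) (pr_const (nr_M hB fun x hx => hx.1) ?_)) ?_
  · rintro _ ⟨x, k, hx, rfl⟩
    have e1 : stepH bl phi halt x = some (step bl phi x) := if_pos hx.2
    have : mg (stepH bl phi halt) H x0 (some .t) (.pt (.M x k)) =
        .pt (.M (step bl phi x) k) := by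
      show SgD.pt ((stepH bl phi halt x).elim root fun y => Vx.M y k) = _
      rw [e1]
      rfl
    have h2 : ¬ W (step bl phi x) := fun h => hx.1 ((hc _ _ e1).2 h)
    rw [this, nf_M W hx.1, nf_M W h2]
    unfold nM
    rw [pad_cons_cons]
    have := run_t0 bl phi x bl bl k
    rw [step, ← this]
    rfl
  · rintro _ ⟨x, k, hx, rfl⟩
    have e1 : stepH bl phi halt x = none := if_neg hx.2
    show SgD.pt ((stepH bl phi halt x).elim root fun y => Vx.M y k) = _
    rw [e1]
    rfl
  · intro s
    constructor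
    · rintro (⟨x, k, hx, e⟩ | ⟨x, k, hx, e⟩)
      · exact ⟨x, k, hx.1, e⟩
      · exact ⟨x, k, hx.1, e⟩
    · rintro ⟨x, k, hx, e⟩
      by_cases h : ∀ s ∈ x, halt s = false
      · exact Or.inl ⟨x, k, ⟨hx, h⟩, e⟩
      · exact Or.inr ⟨x, k, ⟨hx, h⟩, e⟩

end

/-! ### Vertices `M x k` with `x` in `W` -/

section
variable {K : Type} [Finite K] {f : List K → Option (List K)} {H : List K → Prop}
  {x0 : List K} {W : List K → Prop}

theorem piece_W_const (hW : {x | W x}.Finite) (b : Option (Lt K))
    (h : ∀ x k, mg f H x0 b (.pt (.M x k)) = .pt root) :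
    PR f H x0 W (fun s => ∃ x k, W x ∧ s = .pt (.M x k)) b :=
  pr_const (nr_W hW) (by rintro _ ⟨x, k, -, rfl⟩; exact h x k)

theorem piece_W_of {b : Option (Lt K)} (hW : {x | W x}.Finite)
    (h : ∀ x, W x → ∀ r < 2, PR f H x0 W (fun s => ∃ j, s = .pt (.M x (2 * j + r))) b) :
    PR f H x0 W (fun s => ∃ x k, W x ∧ s = .pt (.M x k)) b := by
  refine pr_congr (pr_biUnion hW (T := fun x s => (∃ j, s = .pt (.M x (2 * j + 0))) ∨
    ∃ j, s = .pt (.M x (2 * j + 1))) fun x hx => pr_or (h x hx 0 (by norm_num))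
      (h x hx 1 (by norm_num))) fun s => ?_
  constructor
  · rintro ⟨x, hx, (⟨j, e⟩ | ⟨j, e⟩)⟩
    · exact ⟨x, _, hx, e⟩
    · exact ⟨x, _, hx, e⟩
  · rintro ⟨x, k, hx, rfl⟩
    refine ⟨x, hx, ?_⟩
    rcases Nat.mod_two_eq_zero_or_one k with h | h
    · exact Or.inl ⟨k / 2, by congr 2; omega⟩
    · exact Or.inr ⟨k / 2, by congr 2; omega⟩

theorem nf_Wr {x : List K} (hx : W x) (j r : ℕ) (hr : r < 2) :
    nf W (.pt (.M x (2 * j + r))) =
      (none :: (emb x ++ [some Lt.q])) ++ List.replicate j (some Lt.i) ++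
        List.replicate r (some Lt.h) := by
  rw [nf_W W hx, (half j r hr).1, (half j r hr).2]
  simp [nW]

theorem piece_W_h (hW : {x | W x}.Finite) :
    PR f H x0 W (fun s => ∃ x k, W x ∧ s = .pt (.M x k)) (some .h) := by
  refine piece_W_of hW fun x hx r hr => ?_
  have hr' : r = 0 ∨ r = 1 := by omega
  rcases hr' with rfl | rfl
  · refine pr_lag (none :: (emb x ++ [some Lt.q])) [] (none :: (emb x ++ [some Lt.q]))
      [some .h] (some .i) (fun j => .pt (.M x (2 * j + 0))) ?_ ?_
    · intro j
      rw [nf_Wr hx j 0 hr]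
      simp
    · intro j
      have : mg f H x0 (some .h) (.pt (.M x (2 * j + 0))) = .pt (.M x (2 * j + 1)) := rfl
      rw [this, nf_Wr hx j 1 (by norm_num)]
      simp
  · refine pr_lag (none :: (emb x ++ [some Lt.q])) [some .h] (none :: (emb x ++ [some Lt.q]))
      [some .i] (some .i) (fun j => .pt (.M x (2 * j + 1))) ?_ ?_
    · intro j
      rw [nf_Wr hx j 1 hr]
      simp
    · intro j
      have : mg f H x0 (some .h) (.pt (.M x (2 * j + 1))) = .pt (.M x (2 * (j + 1) + 0)) := rfl
      rw [this, nf_Wr hx (j + 1) 0 (by norm_num)]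
      simp [List.replicate_succ']

theorem piece_W_i (hW : {x | W x}.Finite) :
    PR f H x0 W (fun s => ∃ x k, W x ∧ s = .pt (.M x k)) (some .i) := by
  refine piece_W_of hW fun x hx r hr => ?_
  refine pr_lag (none :: (emb x ++ [some Lt.q])) (List.replicate r (some Lt.h))
    (none :: (emb x ++ [some Lt.q])) (some .i :: List.replicate r (some Lt.h)) (some .i)
    (fun j => .pt (.M x (2 * j + r))) ?_ ?_
  · intro j
    rw [nf_Wr hx j r hr]
  · intro j
    have : mg f H x0 (some .i) (.pt (.M x (2 * j + r))) = .pt (.M x (2 * (j + 1) + r)) := by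
      have e : 2 * (j + 1) + r = 2 * j + r + 2 := by ring
      rw [e]
      rfl
    rw [this, nf_Wr hx (j + 1) r hr]
    simp [List.replicate_succ']

theorem piece_W_t (hW : {x | W x}.Finite) (hc : Closed f W) :
    PR f H x0 W (fun s => ∃ x k, W x ∧ s = .pt (.M x k)) (some .t) := by
  refine piece_W_of hW fun x hx r hr => ?_
  cases hf : f x with
  | none =>
    refine pr_const (nr_Wr hx r hr) ?_
    rintro _ ⟨j, rfl⟩
    show SgD.pt ((f x).elim root fun y => Vx.M y _) = _
    rw [hf]
    rfl
  | some y =>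
    have hy : W y := (hc x y hf).1 hx
    refine pr_lag (none :: (emb x ++ [some Lt.q])) (List.replicate r (some Lt.h))
      (none :: (emb y ++ [some Lt.q])) (List.replicate r (some Lt.h)) (some .i)
      (fun j => .pt (.M x (2 * j + r))) ?_ ?_
    · intro j
      rw [nf_Wr hx j r hr]
    · intro j
      have : mg f H x0 (some .t) (.pt (.M x (2 * j + r))) = .pt (.M y (2 * j + r)) := by
        show SgD.pt ((f x).elim root fun y => Vx.M y _) = _
        rw [hf]
        rfl
      rw [this, nf_Wr hy j r hr]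

end

theorem stmt_REL : Stmt_REL := by
  intro K _ bl phi halt bad x0 W hW hc hHW
  refine ⟨lw_regular hW, ?_, ?_⟩
  · refine reg_congr (reg_pad_append [] (lw_regular hW)) fun w => ?_
    rw [eqLang_iff]
    exact Iff.rfl
  · intro b hb
    have hH : Language.IsRegular ({x | Hbad bad x} : Language K) := reg_ex _
    refine pr_all (piece_F b) ?_ ?_ ?_
    · match b with
      | none => exact piece_P_const _ fun x k => rfl
      | some (.s a) => exact piece_P_s a
      | some .q => exact piece_P_q
      | some .i => exact piece_P_i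
      | some .h => exact piece_P_const _ fun x k => rfl
      | some .t => exact piece_P_const _ fun x k => rfl
      | some .g => exact piece_P_g
      | some .e => exact piece_P_e hH hHW
      | some .d => exact piece_P_d (hb.resolve_left fun h => h rfl)
    · match b with
      | none => exact piece_M_const hW _ fun x k => rfl
      | some (.s a) => exact piece_M_const hW _ fun x k => rfl
      | some .q => exact piece_M_const hW _ fun x k => rfl
      | some .i => exact piece_M_i hW
      | some .h => exact piece_M_h hW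
      | some .t => exact piece_M_t bl phi halt hW hc
      | some .g => exact piece_M_const hW _ fun x k => rfl
      | some .e => exact piece_M_const hW _ fun x k => rfl
      | some .d => exact piece_M_const hW _ fun x k => rfl
    · match b with
      | none => exact piece_W_const hW _ fun x k => rfl
      | some (.s a) => exact piece_W_const hW _ fun x k => rfl
      | some .q => exact piece_W_const hW _ fun x k => rfl
      | some .i => exact piece_W_i hW
      | some .h => exact piece_W_h hW
      | some .t => exact piece_W_t hW hc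
      | some .g => exact piece_W_const hW _ fun x k => rfl
      | some .e => exact piece_W_const hW _ fun x k => rfl
      | some .d => exact piece_W_const hW _ fun x k => rfl

end Pool.Agent.Work.MP_567c26_al_helper68
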