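import Pool.Agent.Work.MP_567c26_al_helper68.CA

/-!
# Block T1: recursive inseparability for word dynamics
-/

set_option linter.unusedVariables false

namespace Pool.Agent.Work.MP_567c26_al_helper68

open Turing

/-- A word dynamics with the halting behaviour of `f`. -/
theorem exists_dyn {f : ℕ →. ℕ} (hf : Partrec f) :
    ∃ (K : Type) (_ : Fintype K) (bl : K) (phi : K → K → K → K) (halt : K → Bool)
      (cX cY cW : K), ∀ n,
      ((∃ j, (∀ i < j, ∀ s ∈ (step bl phi)^[i] (start cX cY cW n), halt s = false) ∧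
        ∃ s ∈ (step bl phi)^[j] (start cX cY cW n), halt s = true) ↔ (f (n + 1)).Dom) := by
  classical
  obtain ⟨Γ, Λ, i1, i2, i3, M, S, x, y, w, hS, h⟩ := exists_TM0' hf
  refine ⟨Cell Γ S, inferInstance, ic S default, phi M S, hl M S, (x, some ⟨default, hS.1⟩),
    ic S y, ic S w, fun n => ?_⟩
  rw [← h n]
  refine (dom_iff hS ?_).symm
  refine ⟨[], x, ⟨default, hS.1⟩, y :: (List.replicate n [w, y]).flatten, ?_, rfl⟩
  have : ∀ n, (List.replicate n [ic S w, ic S y]).flatten =
      ((List.replicate n [w, y]).flatten).map (ic S) := by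
    intro n
    induction n with
    | zero => rfl
    | succ n ih =>
      rw [List.replicate_succ, List.flatten_cons, ih, List.replicate_succ, List.flatten_cons,
        List.map_append]
      rfl
  unfold start enc
  rw [this, List.reverse_nil, List.map_nil, List.nil_append, List.map_cons]

section

variable {K K' L : Type}

theorem exists_mem_map (f : K → L) (P : L → Prop) (l : List K) :
    (∃ s ∈ l.map f, P s) ↔ ∃ s ∈ l, P (f s) := by
  constructor
  · rintro ⟨s, hs, h⟩
    obtain ⟨a, ha, rfl⟩ := List.mem_map.1 hs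
    exact ⟨a, ha, h⟩
  · rintro ⟨a, ha, h⟩
    exact ⟨f a, List.mem_map_of_mem ha, h⟩

theorem win_map (phi : K → K → K → K) (psi : L → L → L → L) (f : K → L)
    (h : ∀ a b c, f (phi a b c) = psi (f a) (f b) (f c)) (p q : K) (l : List K) :
    (win phi p q l).map f = win psi (f p) (f q) (l.map f) := by
  induction l generalizing p q with
  | nil => rfl
  | cons s l ih => simp [win, h, ih]

theorem step_map (phi : K → K → K → K) (psi : L → L → L → L) (f : K → L)
    (h : ∀ a b c, f (phi a b c) = psi (f a) (f b) (f c)) (bl : K) (x : List K) :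
    (step bl phi x).map f = step (f bl) psi (x.map f) := by
  unfold step
  rw [win_map phi psi f h]
  simp

theorem iter_map (phi : K → K → K → K) (psi : L → L → L → L) (f : K → L)
    (h : ∀ a b c, f (phi a b c) = psi (f a) (f b) (f c)) (bl : K) (x : List K) (j : ℕ) :
    ((step bl phi)^[j] x).map f = (step (f bl) psi)^[j] (x.map f) := by
  induction j with
  | zero => rfl
  | succ j ih =>
    rw [Function.iterate_succ_apply', Function.iterate_succ_apply', step_map phi psi f h, ih]

theorem start_map (f : K → L) (a b c : K) (n : ℕ) :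
    (start a b c n).map f = start (f a) (f b) (f c) n := by
  unfold start
  rw [List.map_cons, List.map_cons]
  congr 2
  induction n with
  | zero => rfl
  | succ n ih =>
    rw [List.replicate_succ, List.flatten_cons, List.map_append, ih, List.replicate_succ,
      List.flatten_cons]
    rfl

end

/-- The universal partial function on the diagonal. -/
def dg (n : ℕ) : Part ℕ := Nat.Partrec.Code.eval (Denumerable.ofNat Nat.Partrec.Code n) n

theorem dg_partrec : Partrec dg :=
  Nat.Partrec.Code.eval_part.comp (Computable.ofNat _) Computable.id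

/-- `ft b (n + 1)` is defined if and only if `dg n` is `b`. -/
def ft (b : ℕ) (m : ℕ) : Part ℕ :=
  (dg (m - 1)).bind fun v => if v = b then Part.some 0 else Part.none

theorem ft_partrec (b : ℕ) : Partrec (ft b) := by
  refine (dg_partrec.comp (Primrec.pred.to_comp)).bind ?_
  have h : Computable fun p : ℕ × ℕ => decide (p.2 = b) :=
    (Primrec.eq.comp Primrec.snd (Primrec.const b)).decide.to_comp
  refine (Partrec.cond h (Partrec.const' (Part.some 0)) (Partrec.none)).of_eq fun p => ?_
  by_cases hb : p.2 = b <;> simp [hb]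

theorem ft_dom (b n : ℕ) : (ft b (n + 1)).Dom ↔ b ∈ dg n := by
  unfold ft
  rw [Nat.add_sub_cancel, Part.dom_iff_mem]
  constructor
  · rintro ⟨y, hy⟩
    obtain ⟨v, hv, hy⟩ := Part.mem_bind_iff.1 hy
    split_ifs at hy with h
    · rwa [h] at hv
    · exact absurd hy (Part.notMem_none _)
  · intro h
    exact ⟨0, Part.mem_bind_iff.2 ⟨b, h, by simp⟩⟩

/-- No algorithm separates `dg n = 0` from `dg n = 1`. -/
theorem inseparable : ¬ ∃ D : ℕ → Bool, Computable D ∧ (∀ n, 0 ∈ dg n → D n = false) ∧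
    ∀ n, 1 ∈ dg n → D n = true := by
  rintro ⟨D, hD, h0, h1⟩
  have hc : Computable fun n => cond (D n) 0 1 :=
    Computable.cond hD (Computable.const 0) (Computable.const 1)
  obtain ⟨c, hc⟩ := Nat.Partrec.Code.exists_code.1 (Partrec.nat_iff.1 hc.partrec)
  have hv : dg (Encodable.encode c) = Part.some (cond (D (Encodable.encode c)) 0 1) := by
    unfold dg
    rw [Denumerable.ofNat_encode, hc]
    rfl
  cases hd : D (Encodable.encode c) with
  | true =>
    have := h0 (Encodable.encode c) (by rw [hv, hd]; exact Part.mem_some 0)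
    rw [hd] at this
    exact absurd this (by simp)
  | false =>
    have := h1 (Encodable.encode c) (by rw [hv, hd]; exact Part.mem_some 1)
    rw [hd] at this
    exact absurd this (by simp)

/-- The first time at which a property of natural numbers becomes true. -/
theorem exists_first {P : ℕ → Prop} (h : ∃ j, P j) : ∃ j, P j ∧ ∀ i < j, ¬ P i := by
  classical
  exact ⟨Nat.find h, Nat.find_spec h, fun i hi => Nat.find_min h hi⟩

theorem stmt_T1 : Stmt_T1 := by
  classical
  obtain ⟨K0, i0, bl0, phi0, halt0, x0, y0, w0, h0⟩ := exists_dyn (ft_partrec 0)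
  obtain ⟨K1, i1, bl1, phi1, halt1, x1, y1, w1, h1⟩ := exists_dyn (ft_partrec 1)
  let phi : K0 × K1 → K0 × K1 → K0 × K1 → K0 × K1 := fun a b c =>
    (phi0 a.1 b.1 c.1, phi1 a.2 b.2 c.2)
  refine ⟨K0 × K1, inferInstance, inferInstance, (bl0, bl1), phi,
    fun s => halt0 s.1 || halt1 s.2, fun s => halt0 s.1, (x0, x1), (y0, y1), (w0, w1),
    fun s hs => by simp [hs], ?_⟩
  have p0 : ∀ n j, ((step (bl0, bl1) phi)^[j] (start (x0, x1) (y0, y1) (w0, w1) n)).map Prod.fst =
      (step bl0 phi0)^[j] (start x0 y0 w0 n) := fun n j => by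
    rw [iter_map phi phi0 Prod.fst (fun _ _ _ => rfl), start_map]
  have p1 : ∀ n j, ((step (bl0, bl1) phi)^[j] (start (x0, x1) (y0, y1) (w0, w1) n)).map Prod.snd =
      (step bl1 phi1)^[j] (start x1 y1 w1 n) := fun n j => by
    rw [iter_map phi phi1 Prod.snd (fun _ _ _ => rfl), start_map]
  have q0 : ∀ n j, (∃ s ∈ (step (bl0, bl1) phi)^[j] (start (x0, x1) (y0, y1) (w0, w1) n),
      halt0 s.1 = true) ↔ ∃ s ∈ (step bl0 phi0)^[j] (start x0 y0 w0 n), halt0 s = true := by
    intro n j
    rw [← p0, exists_mem_map]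
  have q1 : ∀ n j, (∃ s ∈ (step (bl0, bl1) phi)^[j] (start (x0, x1) (y0, y1) (w0, w1) n),
      halt1 s.2 = true) ↔ ∃ s ∈ (step bl1 phi1)^[j] (start x1 y1 w1 n), halt1 s = true := by
    intro n j
    rw [← p1, exists_mem_map]
  have r0 : ∀ n, 0 ∈ dg n ↔ ∃ j, ∃ s ∈ (step (bl0, bl1) phi)^[j]
      (start (x0, x1) (y0, y1) (w0, w1) n), halt0 s.1 = true := by
    intro n
    rw [← ft_dom, ← h0]
    constructor
    · rintro ⟨j, -, hj⟩
      exact ⟨j, (q0 n j).2 hj⟩
    · rintro ⟨j, hj⟩
      obtain ⟨k, hk1, hk2⟩ := exists_first (P := fun j => ∃ s ∈ (step bl0 phi0)^[j]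
        (start x0 y0 w0 n), halt0 s = true) ⟨j, (q0 n j).1 hj⟩
      refine ⟨k, fun i hi s hs => ?_, hk1⟩
      by_contra hne
      exact hk2 i hi ⟨s, hs, by simpa using hne⟩
  have r1 : ∀ n, 1 ∈ dg n ↔ ∃ j, ∃ s ∈ (step (bl0, bl1) phi)^[j]
      (start (x0, x1) (y0, y1) (w0, w1) n), halt1 s.2 = true := by
    intro n
    rw [← ft_dom, ← h1]
    constructor
    · rintro ⟨j, -, hj⟩
      exact ⟨j, (q1 n j).2 hj⟩
    · rintro ⟨j, hj⟩
      obtain ⟨k, hk1, hk2⟩ := exists_first (P := fun j => ∃ s ∈ (step bl1 phi1)^[j]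
        (start x1 y1 w1 n), halt1 s = true) ⟨j, (q1 n j).1 hj⟩
      refine ⟨k, fun i hi s hs => ?_, hk1⟩
      by_contra hne
      exact hk2 i hi ⟨s, hs, by simpa using hne⟩
  rintro ⟨D, hD, hA, hB⟩
  apply inseparable
  refine ⟨D, hD, fun n hn => hA n ?_, fun n hn => hB n ?_⟩
  · have hn1 : ¬ 1 ∈ dg n := fun h => absurd (Part.mem_unique hn h) (by simp)
    obtain ⟨k, hk1, hk2⟩ := exists_first ((r0 n).1 hn)
    refine ⟨k, fun i hi s hs => ?_, hk1⟩
    rw [Bool.or_eq_false_iff]
    constructor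
    · by_contra hne
      exact hk2 i hi ⟨s, hs, by simpa using hne⟩
    · by_contra hne
      exact hn1 ((r1 n).2 ⟨i, s, hs, by simpa using hne⟩)
  · have hn0 : ¬ 0 ∈ dg n := fun h => absurd (Part.mem_unique hn h) (by simp)
    have hno : ∀ i, ∀ s ∈ (step (bl0, bl1) phi)^[i] (start (x0, x1) (y0, y1) (w0, w1) n),
        halt0 s.1 = false := by
      intro i s hs
      by_contra hne
      exact hn0 ((r0 n).2 ⟨i, s, hs, by simpa using hne⟩)
    obtain ⟨k, ⟨s, hs, hs'⟩, hk2⟩ := exists_first ((r1 n).1 hn)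
    refine ⟨k, fun i hi s hs => ?_, ⟨s, hs, by simp [hs']⟩, fun s hs => hno k s hs⟩
    rw [Bool.or_eq_false_iff]
    refine ⟨hno i s hs, ?_⟩
    by_contra hne
    exact hk2 i hi ⟨s, hs, by simpa using hne⟩

end Pool.Agent.Work.MP_567c26_al_helper68
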