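import Mathlib

/-!
# Words dynamics given by a local rule, and the statement of the machine block T1
-/

namespace Pool.Agent.Work.MP_567c26_al_helper68

/-- The local rule `phi` applied to all the windows of width three of `p q l`. -/
def win {K : Type} (phi : K → K → K → K) : K → K → List K → List K
  | _, _, [] => []
  | p, q, s :: l => phi p q s :: win phi q s l

/-- One step: the word is surrounded by blanks and the local rule is applied; the word gets longer
by two letters. -/
def step {K : Type} (bl : K) (phi : K → K → K → K) (x : List K) : List K :=
  win phi bl bl (x ++ [bl, bl])

/-- The start words. -/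
def start {K : Type} (cX cY cW : K) (n : ℕ) : List K :=
  cX :: cY :: (List.replicate n [cW, cY]).flatten

theorem win_length {K : Type} (phi : K → K → K → K) (p q : K) (l : List K) :
    (win phi p q l).length = l.length := by
  induction l generalizing p q with
  | nil => rfl
  | cons s l ih => simp [win, ih]

theorem step_length {K : Type} (bl : K) (phi : K → K → K → K) (x : List K) :
    (step bl phi x).length = x.length + 2 := by
  simp [step, win_length]

/-- Block T1: there is a local rule with halting letters and bad halting letters such that no
algorithm separates the start words whose orbit halts with a bad letter from the start words whose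
orbit halts without bad letter. -/
def Stmt_T1 : Prop :=
  ∃ (K : Type) (_ : Fintype K) (_ : DecidableEq K) (bl : K) (phi : K → K → K → K)
    (halt bad : K → Bool) (cX cY cW : K),
    (∀ s, bad s = true → halt s = true) ∧
    ¬ ∃ D : ℕ → Bool, Computable D ∧
      (∀ n, (∃ j, (∀ i < j, ∀ s ∈ (step bl phi)^[i] (start cX cY cW n), halt s = false) ∧
        ∃ s ∈ (step bl phi)^[j] (start cX cY cW n), bad s = true) → D n = false) ∧
      (∀ n, (∃ j, (∀ i < j, ∀ s ∈ (step bl phi)^[i] (start cX cY cW n), halt s = false) ∧
        (∃ s ∈ (step bl phi)^[j] (start cX cY cW n), halt s = true) ∧
        ∀ s ∈ (step bl phi)^[j] (start cX cY cW n), bad s = false) → D n = true)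

end Pool.Agent.Work.MP_567c26_al_helper68
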