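import Pool.Agent.Work.MP_567c26_al_helper68.TM
import Pool.Agent.Work.MP_567c26_al_helper68.Dyn68

/-!
# Simulation of a Turing machine by a local rule
-/

set_option linter.unusedVariables false

namespace Pool.Agent.Work.MP_567c26_al_helper68

open Turing

section

variable {Γ Λ : Type} [Inhabited Γ] [Inhabited Λ] (M : TM0.Machine Γ Λ) (S : Finset Λ)

/-- The cells: a symbol, and possibly a state. -/
abbrev Cell (Γ : Type) {Λ : Type} (S : Finset Λ) : Type := Γ × Option S

open Classical in
/-- The machine restricted to the states in `S`. -/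
noncomputable def mr (q : S) (a : Γ) : Option (S × TM0.Stmt Γ) :=
  (M q.1 a).bind fun p => if h : p.1 ∈ S then some (⟨p.1, h⟩, p.2) else none

variable {M S} in
theorem mr_eq_none (hS : TM0.Supports M (↑S : Set Λ)) (q : S) (a : Γ) :
    mr M S q a = none ↔ M q.1 a = none := by
  unfold mr
  cases h : M q.1 a with
  | none => simp
  | some p =>
    have hp : p.1 ∈ S := hS.2 (show (p.1, p.2) ∈ M q.1 a from h) q.2
    simp [hp]

variable {M S} in
theorem mr_eq_some {q q' : S} {a : Γ} {s : TM0.Stmt Γ} (h : mr M S q a = some (q', s)) :
    M q.1 a = some (q'.1, s) := by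
  unfold mr at h
  cases h' : M q.1 a with
  | none => simp [h'] at h
  | some p =>
    rw [h', Option.bind_some] at h
    split_ifs at h with hp
    injection h with h
    injection h with h1 h2
    subst h1 h2
    rfl

/-- The new centre cell. -/
noncomputable def phi (p c r : Cell Γ S) : Cell Γ S :=
  match c.2 with
  | some q => match mr M S q c.1 with
    | some (q', .write b) => (b, some q')
    | some (_, .move _) => (c.1, none)
    | none => c
  | none => match p.2, r.2 with
    | some q, _ => match mr M S q p.1 with
      | some (q', .move .right) => (c.1, some q')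
      | _ => c
    | none, some q => match mr M S q r.1 with
      | some (q', .move .left) => (c.1, some q')
      | _ => c
    | none, none => c

/-- A cell without state. -/
def ic (S : Finset Λ) (a : Γ) : Cell Γ S := (a, none)

/-- A halting cell. -/
noncomputable def hl (c : Cell Γ S) : Bool :=
  match c.2 with
  | some q => (mr M S q c.1).isNone
  | none => false

/-- The word coding a configuration. -/
def enc (L : List Γ) (a : Γ) (q : S) (R : List Γ) : List (Cell Γ S) :=
  (L.reverse).map (ic S) ++ (a, some q) :: R.map (ic S)

theorem phi_ic (a b c : Γ) : phi M S (ic S a) (ic S b) (ic S c) = ic S b := rfl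

theorem win_right (p q : Γ) (R : List Γ) :
    win (phi M S) (ic S p) (ic S q) (R.map (ic S)) = ((q :: R).dropLast).map (ic S) := by
  induction R generalizing p q with
  | nil => rfl
  | cons r R ih =>
    rw [List.map_cons, win, phi_ic, ih]
    rfl

theorem win_left (p q : Γ) (L : List Γ) (T : List (Cell Γ S)) :
    ∃ u, win (phi M S) (ic S p) (ic S q) (L.map (ic S) ++ T) =
      ((q :: L).dropLast).map (ic S) ++
        win (phi M S) (ic S u) (ic S ((q :: L).getLast (List.cons_ne_nil _ _))) T := by
  induction L generalizing p q with
  | nil => exact ⟨p, rfl⟩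
  | cons z L ih =>
    obtain ⟨u, hu⟩ := ih q z
    refine ⟨u, ?_⟩
    rw [List.map_cons, List.cons_append, win, phi_ic, hu]
    rfl

/-- One step of the local rule on the code of a configuration. -/
theorem step_enc (L : List Γ) (a : Γ) (q : S) (R : List Γ) :
    ∃ v r : Γ, ∃ L' R' : List Γ, L ++ [default] = v :: L' ∧ R ++ [default] = r :: R' ∧
    ∃ u u' : Γ,
    step (ic S default) (phi M S) (enc S L a q R) =
      (L'.reverse).map (ic S) ++ phi M S (ic S u) (ic S v) (a, some q) ::
        phi M S (ic S v) (a, some q) (ic S r) :: phi M S (a, some q) (ic S r) (ic S u') ::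
        R'.map (ic S) := by
  obtain ⟨v, L', hL⟩ : ∃ v L', L ++ [(default : Γ)] = v :: L' := by
    cases L with
    | nil => exact ⟨_, _, rfl⟩
    | cons b L => exact ⟨_, _, rfl⟩
  obtain ⟨r, R', hR⟩ : ∃ r R', R ++ [(default : Γ)] = r :: R' := by
    cases R with
    | nil => exact ⟨_, _, rfl⟩
    | cons b R => exact ⟨_, _, rfl⟩
  refine ⟨v, r, L', R', hL, hR, ?_⟩
  obtain ⟨u, hu⟩ := win_left M S default default L.reverse
    ((a, some q) :: R.map (ic S) ++ [ic S default, ic S default])
  have e1 : (default : Γ) :: L.reverse = (L ++ [default]).reverse := by simp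
  have e2 : (default :: L.reverse).dropLast = L'.reverse := by
    rw [e1, hL]; simp
  have e3 : (default :: L.reverse).getLast (List.cons_ne_nil _ _) = v := by
    simp only [e1, hL]; simp
  have e4 : R.map (ic S) ++ [ic S default, ic S default] =
      ic S r :: (R' ++ [default]).map (ic S) := by
    have : R.map (ic S) ++ [ic S default, ic S default] =
        ((R ++ [default]) ++ [default]).map (ic S) := by simp
    rw [this, hR]; rfl
  obtain ⟨u', R'', hR''⟩ : ∃ u' R'', R' ++ [(default : Γ)] = u' :: R'' := by
    cases R' with
    | nil => exact ⟨_, _, rfl⟩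
    | cons b R' => exact ⟨_, _, rfl⟩
  refine ⟨u, u', ?_⟩
  unfold step enc
  have e5 : (L.reverse).map (ic S) ++ (a, some q) :: R.map (ic S) ++ [ic S default, ic S default] =
      (L.reverse).map (ic S) ++
        ((a, some q) :: R.map (ic S) ++ [ic S default, ic S default]) := by simp
  rw [e5]
  change win (phi M S) (ic S default) (ic S default) _ = _
  rw [hu, e2, e3]
  congr 1
  rw [List.cons_append, e4, hR'', win, win, List.map_cons, win, win_right]
  have e6 : (u' :: R'').dropLast = R' := by rw [← hR'']; simp
  rw [e6]


theorem mk_snoc (L : List Γ) : ListBlank.mk (L ++ [default]) = ListBlank.mk L := by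
  symm
  apply Quotient.sound
  exact Or.inl ⟨1, by simp⟩

/-- The word `x` codes the configuration `c`. -/
def Rep (x : List (Cell Γ S)) (c : TM0.Cfg Γ Λ) : Prop :=
  ∃ (L : List Γ) (a : Γ) (q : S) (R : List Γ), x = enc S L a q R ∧
    c = ⟨q.1, ⟨a, ListBlank.mk L, ListBlank.mk R⟩⟩

variable {M S}

theorem rep_halt (hS : TM0.Supports M (↑S : Set Λ)) {x : List (Cell Γ S)} {c : TM0.Cfg Γ Λ}
    (h : Rep S x c) : (∃ s ∈ x, hl M S s = true) ↔ TM0.step M c = none := by
  obtain ⟨L, a, q, R, rfl, rfl⟩ := h
  have h1 : TM0.step M (⟨q.1, ⟨a, ListBlank.mk L, ListBlank.mk R⟩⟩ : TM0.Cfg Γ Λ) = none ↔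
      M q.1 a = none := by
    simp [TM0.step]
  rw [h1, ← mr_eq_none hS q a]
  have h2 : ∀ b : Γ, hl M S (ic S b) = false := fun b => rfl
  constructor
  · rintro ⟨s, hs, h⟩
    unfold enc at hs
    rw [List.mem_append, List.mem_cons, List.mem_map, List.mem_map] at hs
    rcases hs with ⟨b, -, rfl⟩ | rfl | ⟨b, -, rfl⟩
    · rw [h2] at h; exact absurd h (by simp)
    · simpa [hl] using h
    · rw [h2] at h; exact absurd h (by simp)
  · intro h
    refine ⟨(a, some q), by simp [enc], ?_⟩
    simp [hl, h]

theorem rep_step (hS : TM0.Supports M (↑S : Set Λ)) {x : List (Cell Γ S)} {c c' : TM0.Cfg Γ Λ}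
    (h : Rep S x c) (hc : TM0.step M c = some c') :
    Rep S (step (ic S default) (phi M S) x) c' := by
  obtain ⟨L, a, q, R, rfl, rfl⟩ := h
  obtain ⟨v, r, L', R', hL, hR, u, u', e⟩ := step_enc M S L a q R
  have hL' : ListBlank.mk L = (ListBlank.mk L').cons v := by
    rw [← mk_snoc L, hL]; rfl
  have hR' : ListBlank.mk R = (ListBlank.mk R').cons r := by
    rw [← mk_snoc R, hR]; rfl
  cases hm : mr M S q a with
  | none =>
    rw [mr_eq_none hS] at hm
    simp [TM0.step, hm] at hc
  | some p =>
    obtain ⟨q', s⟩ := p
    have hM := mr_eq_some hm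
    simp only [TM0.step, hM, Option.map_some, Option.some.injEq] at hc
    subst hc
    rw [e]
    cases s with
    | write b =>
      have p1 : phi M S (ic S u) (ic S v) (a, some q) = ic S v := by
        simp [phi, ic, hm]
      have p2 : phi M S (ic S v) (a, some q) (ic S r) = (b, some q') := by
        simp [phi, hm]
      have p3 : phi M S (a, some q) (ic S r) (ic S u') = ic S r := by
        simp [phi, ic, hm]
      refine ⟨v :: L', b, q', r :: R', ?_, ?_⟩
      · rw [p1, p2, p3]
        simp [enc]
      · rw [hL', hR']
        rfl
    | move d =>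
      cases d with
      | left =>
        have p1 : phi M S (ic S u) (ic S v) (a, some q) = (v, some q') := by
          simp [phi, ic, hm]
        have p2 : phi M S (ic S v) (a, some q) (ic S r) = ic S a := by
          simp [phi, hm, ic]
        have p3 : phi M S (a, some q) (ic S r) (ic S u') = ic S r := by
          simp [phi, ic, hm]
        refine ⟨L', v, q', a :: r :: R', ?_, ?_⟩
        · rw [p1, p2, p3]
          simp [enc]
        · rw [hL', hR']
          simp [Tape.move]
      | right =>
        have p1 : phi M S (ic S u) (ic S v) (a, some q) = ic S v := by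
          simp [phi, ic, hm]
        have p2 : phi M S (ic S v) (a, some q) (ic S r) = ic S a := by
          simp [phi, hm, ic]
        have p3 : phi M S (a, some q) (ic S r) (ic S u') = (r, some q') := by
          simp [phi, ic, hm]
        refine ⟨a :: v :: L', r, q', R', ?_, ?_⟩
        · rw [p1, p2, p3]
          simp [enc]
        · rw [hL', hR']
          simp [Tape.move]

/-- The first halting time of the orbit of the code word is a halting time of the machine. -/
theorem dom_iff (hS : TM0.Supports M (↑S : Set Λ)) {x : List (Cell Γ S)} {c : TM0.Cfg Γ Λ}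
    (h : Rep S x c) : (StateTransition.eval (TM0.step M) c).Dom ↔
      ∃ j, (∀ i < j, ∀ s ∈ (step (ic S default) (phi M S))^[i] x, hl M S s = false) ∧
        ∃ s ∈ (step (ic S default) (phi M S))^[j] x, hl M S s = true := by
  constructor
  · intro hd
    obtain ⟨b, hb⟩ := Part.dom_iff_mem.1 hd
    obtain ⟨h1, h2⟩ := StateTransition.mem_eval.1 hb
    clear hd hb
    induction h1 using Relation.ReflTransGen.head_induction_on generalizing x with
    | refl => exact ⟨0, fun i hi => absurd hi (Nat.not_lt_zero i), (rep_halt hS h).2 h2⟩
    | @head c d hcd _ ih =>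
      obtain ⟨j, hj1, hj2⟩ := ih (rep_step hS h hcd)
      refine ⟨j + 1, ?_, ?_⟩
      · intro i hi
        cases i with
        | zero =>
          intro s hs
          by_contra hne
          have : TM0.step M c = none := (rep_halt hS h).1 ⟨s, hs, by simpa using hne⟩
          rw [this] at hcd
          exact absurd hcd (by simp)
        | succ i =>
          rw [Function.iterate_succ_apply]
          exact hj1 i (by omega)
      · rw [Function.iterate_succ_apply]
        exact hj2
  · rintro ⟨j, hj1, hj2⟩
    induction j generalizing x c with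
    | zero =>
      have := (rep_halt hS h).1 hj2
      exact Part.dom_iff_mem.2 ⟨c, StateTransition.mem_eval.2 ⟨.refl, this⟩⟩
    | succ j ih =>
      cases hc : TM0.step M c with
      | none => exact Part.dom_iff_mem.2 ⟨c, StateTransition.mem_eval.2 ⟨.refl, hc⟩⟩
      | some d =>
        have h1 := ih (rep_step hS h hc)
          (fun i hi => by
            have := hj1 (i + 1) (by omega)
            rwa [Function.iterate_succ_apply] at this)
          (by rwa [Function.iterate_succ_apply] at hj2)
        rwa [StateTransition.reaches_eval (f := TM0.step M) (a := c) (b := d)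
          (Relation.ReflTransGen.single (by rw [hc]; rfl))]

end

end Pool.Agent.Work.MP_567c26_al_helper68
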