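import Pool.Agent.Work.MP_567c26_al.V2.Interface
import Pool.Agent.Work.MP_567c26_al.V2.Reg

/-!
# Normal forms and their languages
-/

set_option linter.unusedVariables false
set_option linter.unusedSectionVars false
set_option linter.style.haveILetI false

namespace Pool.Agent.Work.MP_567c26_al_helper68

open Pool.Agent.Work.MP_567c26_al Pool.Agent.Work.MP_567c26_al.V2

section
variable {K : Type} (f : List K → Option (List K)) (H : List K → Prop) (x0 : List K)
  (W : List K → Prop)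

/-- The letters of a word over `K`. -/
def emb (x : List K) : List (Option (Lt K)) := x.map fun a => some (Lt.s a)

/-- The name of `P x k`. -/
def nP (x : List K) (k : ℕ) : List (Option (Lt K)) :=
  none :: (emb x ++ List.replicate k (some Lt.i))

/-- The long name of `M x k`. -/
def nM (x : List K) (k : ℕ) : List (Option (Lt K)) :=
  none :: (emb x ++ some Lt.q :: List.replicate k (some Lt.h))

/-- The short name of `M x (2 j + r)`. -/
def nW (x : List K) (j r : ℕ) : List (Option (Lt K)) :=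
  none :: (emb x ++ some Lt.q :: (List.replicate j (some Lt.i) ++ List.replicate r (some Lt.h)))

theorem emb_append (x y : List K) : emb (x ++ y) = emb x ++ emb y := by simp [emb]

theorem nf_F (a : Lt K) (l : List (Lt K)) : nf W (.fr a l) = (a :: l).map some := rfl

theorem nf_P (x : List K) (k : ℕ) : nf W (.pt (.P x k)) = nP x k := by
  simp [nf, nP, emb]

theorem nf_root : nf W (.pt root) = [none] := by
  simp [nf, root]

theorem nf_M {x : List K} (h : ¬ W x) (k : ℕ) : nf W (.pt (.M x k)) = nM x k := by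
  simp [nf, nM, emb, h]

theorem nf_W {x : List K} (h : W x) (k : ℕ) :
    nf W (.pt (.M x k)) = nW x (k / 2) (k % 2) := by
  simp [nf, nW, emb, h]

/-- The product with a generator. -/
noncomputable def mg (b : Option (Lt K)) (s : SgD K) : SgD K :=
  match b with
  | none => .pt root
  | some b => match s with
    | .fr a l => .fr a (l ++ [b])
    | .pt x => .pt (act f H x0 x b)

theorem mul_gl (s : Sg f H x0) (b : Option (Lt K)) : s * gl f H x0 b = mg f H x0 b s := by
  cases b with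
  | none => exact mul_c f H x0 s
  | some b => cases s <;> rfl

theorem foldl_emb (x y : List K) :
    (x.map Lt.s).foldl (act f H x0) (.P y 0) = .P (y ++ x) 0 := by
  induction x generalizing y with
  | nil => simp
  | cons a x ih =>
    rw [List.map_cons, List.foldl_cons]
    have : act f H x0 (.P y 0) (Lt.s a) = .P (y ++ [a]) 0 := by simp [act]
    rw [this, ih]
    simp

theorem foldl_i (x : List K) (k m : ℕ) :
    (List.replicate k Lt.i).foldl (act f H x0) (.P x m) = .P x (m + k) := by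
  induction k generalizing m with
  | zero => rfl
  | succ k ih =>
    rw [List.replicate_succ, List.foldl_cons]
    have : act f H x0 (.P x m) Lt.i = .P x (m + 1) := rfl
    rw [this, ih]
    congr 1; omega

theorem foldl_h (x : List K) (k m : ℕ) :
    (List.replicate k Lt.h).foldl (act f H x0) (.M x m) = .M x (m + k) := by
  induction k generalizing m with
  | zero => rfl
  | succ k ih =>
    rw [List.replicate_succ, List.foldl_cons]
    have : act f H x0 (.M x m) Lt.h = .M x (m + 1) := rfl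
    rw [this, ih]
    congr 1; omega

theorem foldl_i' (x : List K) (k m : ℕ) :
    (List.replicate k Lt.i).foldl (act f H x0) (.M x m) = .M x (m + 2 * k) := by
  induction k generalizing m with
  | zero => rfl
  | succ k ih =>
    rw [List.replicate_succ, List.foldl_cons]
    have : act f H x0 (.M x m) Lt.i = .M x (m + 2) := rfl
    rw [this, ih]
    congr 1; omega

theorem act_q (x : List K) : act f H x0 (.P x 0) Lt.q = .M x 0 := by simp [act]

/-- The normal form of an element is a name of it. -/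
theorem val_nf (s : Sg f H x0) : Val (gl f H x0) (nf W s) s := by
  rcases s with ⟨a, l⟩ | ⟨x, k⟩ | ⟨x, k⟩
  · exact val_fr f H x0 a l
  · have := val_pt f H x0 (x.map Lt.s ++ List.replicate k Lt.i)
    rw [List.foldl_append, root, foldl_emb, foldl_i] at this
    simpa [nf, eP] using this
  · by_cases h : W x
    · have := val_pt f H x0 (x.map Lt.s ++ Lt.q :: (List.replicate (k / 2) Lt.i ++
        List.replicate (k % 2) Lt.h))
      rw [List.foldl_append, root, foldl_emb, List.foldl_cons, List.nil_append, act_q,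
        List.foldl_append, foldl_i', foldl_h, Nat.zero_add, Nat.div_add_mod] at this
      simpa [nf, h, eP] using this
    · have := val_pt f H x0 (x.map Lt.s ++ Lt.q :: List.replicate k Lt.h)
      rw [List.foldl_append, root, foldl_emb, List.foldl_cons, List.nil_append, act_q,
        foldl_h, Nat.zero_add] at this
      simpa [nf, h, eP] using this

theorem eqLang_iff (w : List (Option (Option (Lt K)) × Option (Option (Lt K)))) :
    w ∈ eqLang (gl f H x0) (Lw W) ↔ ∃ u ∈ Lw W, w = pad u (u ++ []) := by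
  constructor
  · rintro ⟨_, ⟨s, rfl⟩, _, ⟨s', rfl⟩, ⟨v, h, h'⟩, rfl⟩
    have e := val_unique h (val_nf f H x0 W s)
    have e' := val_unique h' (val_nf f H x0 W s')
    have : s = s' := e.symm.trans e'
    subst this
    exact ⟨nf W s, ⟨s, rfl⟩, by rw [List.append_nil]⟩
  · rintro ⟨_, ⟨s, rfl⟩, rfl⟩
    exact ⟨_, ⟨s, rfl⟩, _, ⟨s, rfl⟩, ⟨s, val_nf f H x0 W s, val_nf f H x0 W s⟩,
      by rw [List.append_nil]⟩

theorem mulLang_iff (b : Option (Lt K)) (w : List (Option (Option (Lt K)) × Option (Option (Lt K)))) :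
    w ∈ mulLang (gl f H x0) (Lw W) b ↔ ∃ s : SgD K, w = pad (nf W s) (nf W (mg f H x0 b s)) := by
  constructor
  · rintro ⟨_, ⟨s, rfl⟩, _, ⟨s', rfl⟩, ⟨v, h, h'⟩, rfl⟩
    have e := val_unique h (val_nf f H x0 W s)
    have e' := val_unique h' (val_nf f H x0 W s')
    subst e
    rw [mul_gl] at e'
    refine ⟨v, ?_⟩
    rw [← e']
  · rintro ⟨s, rfl⟩
    refine ⟨_, ⟨s, rfl⟩, _, ⟨_, rfl⟩, ⟨s, val_nf f H x0 W s, ?_⟩, rfl⟩
    rw [mul_gl]
    exact val_nf f H x0 W _

/-! ## Regularity of sets of names -/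

variable [Finite K]

/-- The names of the elements in `T` form a regular language. -/
def NR (W : List K → Prop) (T : SgD K → Prop) : Prop :=
  Language.IsRegular ({w | ∃ s, T s ∧ w = nf W s} : Language (Option (Lt K)))

variable {W}

theorem reg_emb {X : List K → Prop} (hX : Language.IsRegular ({x | X x} : Language K)) :
    Language.IsRegular ({w | ∃ x, X x ∧ w = emb x} : Language (Option (Lt K))) := by
  refine reg_congr (reg_map (fun a => some (Lt.s a)) hX) fun w => ?_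
  constructor
  · rintro ⟨x, hx, rfl⟩
    exact ⟨x, hx, rfl⟩
  · rintro ⟨x, hx, rfl⟩
    exact ⟨x, hx, rfl⟩

theorem nr_F : NR W fun s => ∃ a l, s = .fr a l := by
  refine reg_congr (reg_and (reg_all fun a : Option (Lt K) => a ≠ none) (reg_not reg_one))
    fun w => ?_
  constructor
  · rintro ⟨h1, h2⟩
    have key : ∀ w : List (Option (Lt K)), (∀ a ∈ w, a ≠ none) → ∃ l : List (Lt K), w = l.map some := by
      intro w
      induction w with
      | nil => intro _; exact ⟨[], rfl⟩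
      | cons a w ih =>
        intro h
        obtain ⟨l, hl⟩ := ih fun b hb => h b (List.mem_cons_of_mem _ hb)
        obtain ⟨c, hc⟩ := Option.ne_none_iff_exists.1 (h a (by simp))
        exact ⟨c :: l, by rw [hl, ← hc]; rfl⟩
    obtain ⟨l, rfl⟩ := key w h1
    cases l with
    | nil => exact absurd rfl h2
    | cons a l => exact ⟨.fr a l, ⟨a, l, rfl⟩, rfl⟩
  · rintro ⟨s, ⟨a, l, rfl⟩, rfl⟩
    rw [nf_F]
    refine ⟨?_, ?_⟩
    · intro b hb
      obtain ⟨c, -, rfl⟩ := List.mem_map.1 hb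
      simp
    · show (a :: l).map some ≠ []
      simp

theorem nr_P {X : List K → Prop} (hX : Language.IsRegular ({x | X x} : Language K)) :
    NR W fun s => ∃ x k, X x ∧ s = .pt (.P x k) := by
  refine reg_congr (reg_cons none (reg_mul (reg_emb hX) (reg_rep (some Lt.i)))) fun w => ?_
  constructor
  · rintro ⟨_, ⟨_, ⟨x, hx, rfl⟩, _, ⟨k, rfl⟩, rfl⟩, rfl⟩
    exact ⟨_, ⟨x, k, hx, rfl⟩, (nf_P W x k).symm⟩
  · rintro ⟨_, ⟨x, k, hx, rfl⟩, rfl⟩
    exact ⟨_, ⟨_, ⟨x, hx, rfl⟩, _, ⟨k, rfl⟩, rfl⟩, nf_P W x k⟩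

theorem nr_P0 {X : List K → Prop} (hX : Language.IsRegular ({x | X x} : Language K)) :
    NR W fun s => ∃ x, X x ∧ s = .pt (.P x 0) := by
  refine reg_congr (reg_cons none (reg_emb hX)) fun w => ?_
  constructor
  · rintro ⟨_, ⟨x, hx, rfl⟩, rfl⟩
    exact ⟨_, ⟨x, hx, rfl⟩, by rw [nf_P]; simp [nP]⟩
  · rintro ⟨_, ⟨x, hx, rfl⟩, rfl⟩
    exact ⟨_, ⟨x, hx, rfl⟩, by rw [nf_P]; simp [nP]⟩

theorem nr_P1 {X : List K → Prop} (hX : Language.IsRegular ({x | X x} : Language K)) :
    NR W fun s => ∃ x k, X x ∧ s = .pt (.P x (k + 1)) := by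
  refine reg_congr (reg_cons none (reg_mul (reg_emb hX) (reg_cons (some Lt.i)
    (reg_rep (some Lt.i))))) fun w => ?_
  constructor
  · rintro ⟨_, ⟨_, ⟨x, hx, rfl⟩, _, ⟨_, ⟨k, rfl⟩, rfl⟩, rfl⟩, rfl⟩
    exact ⟨_, ⟨x, k, hx, rfl⟩, by rw [nf_P]; rfl⟩
  · rintro ⟨_, ⟨x, k, hx, rfl⟩, rfl⟩
    exact ⟨_, ⟨_, ⟨x, hx, rfl⟩, _, ⟨_, ⟨k, rfl⟩, rfl⟩, rfl⟩, by rw [nf_P]; rfl⟩

theorem nr_M {X : List K → Prop} (hX : Language.IsRegular ({x | X x} : Language K))
    (hXW : ∀ x, X x → ¬ W x) :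
    NR W fun s => ∃ x k, X x ∧ s = .pt (.M x k) := by
  refine reg_congr (reg_cons none (reg_mul (reg_emb hX) (reg_cons (some Lt.q)
    (reg_rep (some Lt.h))))) fun w => ?_
  constructor
  · rintro ⟨_, ⟨_, ⟨x, hx, rfl⟩, _, ⟨_, ⟨k, rfl⟩, rfl⟩, rfl⟩, rfl⟩
    exact ⟨_, ⟨x, k, hx, rfl⟩, by rw [nf_M W (hXW x hx)]; rfl⟩
  · rintro ⟨_, ⟨x, k, hx, rfl⟩, rfl⟩
    exact ⟨_, ⟨_, ⟨x, hx, rfl⟩, _, ⟨_, ⟨k, rfl⟩, rfl⟩, rfl⟩, by rw [nf_M W (hXW x hx)]; rfl⟩

theorem half (j r : ℕ) (hr : r < 2) : (2 * j + r) / 2 = j ∧ (2 * j + r) % 2 = r := by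
  constructor <;> omega

theorem nr_Wr {x : List K} (hx : W x) (r : ℕ) (hr : r < 2) :
    NR W fun s => ∃ j, s = .pt (.M x (2 * j + r)) := by
  refine reg_congr (reg_mul (reg_single (none :: (emb x ++ [some Lt.q])))
    (reg_mul (reg_rep (some Lt.i)) (reg_single (List.replicate r (some Lt.h))))) fun w => ?_
  constructor
  · rintro ⟨u, hu, _, ⟨_, ⟨j, rfl⟩, v, hv, rfl⟩, rfl⟩
    refine ⟨_, ⟨j, rfl⟩, ?_⟩
    rw [nf_W W hx, (half j r hr).1, (half j r hr).2, show u = _ from hu, show v = _ from hv]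
    simp [nW]
  · rintro ⟨_, ⟨j, rfl⟩, rfl⟩
    refine ⟨_, rfl, _, ⟨_, ⟨j, rfl⟩, _, rfl, rfl⟩, ?_⟩
    rw [nf_W W hx, (half j r hr).1, (half j r hr).2]
    simp [nW]

theorem nr_or {T T' : SgD K → Prop} (h : NR W T) (h' : NR W T') : NR W fun s => T s ∨ T' s := by
  refine reg_congr (reg_or h h') fun w => ?_
  constructor
  · rintro (⟨s, hs, e⟩ | ⟨s, hs, e⟩)
    · exact ⟨s, Or.inl hs, e⟩
    · exact ⟨s, Or.inr hs, e⟩
  · rintro ⟨s, hs | hs, e⟩
    · exact Or.inl ⟨s, hs, e⟩
    · exact Or.inr ⟨s, hs, e⟩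

theorem nr_congr {T T' : SgD K → Prop} (h : NR W T) (e : ∀ s, T s ↔ T' s) : NR W T' :=
  reg_congr h fun w => by
    constructor
    · rintro ⟨s, hs, h⟩
      exact ⟨s, (e s).1 hs, h⟩
    · rintro ⟨s, hs, h⟩
      exact ⟨s, (e s).2 hs, h⟩

theorem nr_W (hW : {x | W x}.Finite) : NR W fun s => ∃ x k, W x ∧ s = .pt (.M x k) := by
  refine reg_congr (reg_biUnion hW (fun x w => ∃ s : SgD K,
    ((∃ j, s = .pt (.M x (2 * j + 0))) ∨ ∃ j, s = .pt (.M x (2 * j + 1))) ∧ w = nf W s)
      fun x hx => nr_or (nr_Wr (W := W) (x := x) hx 0 (by norm_num))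
        (nr_Wr (W := W) (x := x) hx 1 (by norm_num))) fun w => ?_
  constructor
  · rintro ⟨x, hx, s, (⟨j, rfl⟩ | ⟨j, rfl⟩), rfl⟩
    · exact ⟨_, ⟨x, _, hx, rfl⟩, rfl⟩
    · exact ⟨_, ⟨x, _, hx, rfl⟩, rfl⟩
  · rintro ⟨_, ⟨x, k, hx, rfl⟩, rfl⟩
    refine ⟨x, hx, _, ?_, rfl⟩
    rcases Nat.mod_two_eq_zero_or_one k with h | h
    · exact Or.inl ⟨k / 2, by congr 2; omega⟩
    · exact Or.inr ⟨k / 2, by congr 2; omega⟩

theorem reg_top {α : Type} : Language.IsRegular ({w : List α | True} : Language α) :=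
  reg_congr (reg_all fun _ => True) fun w => by simp

theorem reg_notW (hW : {x | W x}.Finite) :
    Language.IsRegular ({x | ¬ W x} : Language K) :=
  reg_not (reg_finite hW)

theorem lw_regular (hW : {x | W x}.Finite) : (Lw W).IsRegular := by
  refine reg_congr (nr_or (W := W) (nr_F) (nr_or (nr_P (X := fun _ => True) reg_top)
    (nr_or (nr_M (X := fun x => ¬ W x) (reg_notW hW) fun x h => h) (nr_W hW)))) fun w => ?_
  constructor
  · rintro ⟨s, -, rfl⟩
    exact ⟨s, rfl⟩
  · rintro ⟨s, rfl⟩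
    refine ⟨s, ?_, rfl⟩
    rcases s with ⟨a, l⟩ | ⟨x, k⟩ | ⟨x, k⟩
    · exact Or.inl ⟨a, l, rfl⟩
    · exact Or.inr (Or.inl ⟨x, k, trivial, rfl⟩)
    · by_cases h : W x
      · exact Or.inr (Or.inr (Or.inr ⟨x, k, h, rfl⟩))
      · exact Or.inr (Or.inr (Or.inl ⟨x, k, h, rfl⟩))

end

end Pool.Agent.Work.MP_567c26_al_helper68
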