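import Pool.Agent.Work.MP_e8d052_lc.Machine

/-!
# Every partial recursive function is halting-equivalent to a Turing machine with finitely many
states and letters, on the inputs `x y (w y)^n`
-/

set_option linter.unusedVariables false

namespace Pool.Agent.Work.MP_567c26_al_helper68

open Turing Turing.ToPartrec Nat.Partrec Pool.Agent.Work.MP_e8d052_lc

/-- A code with the same halting behaviour as `f` on the inputs `[1, ..., 1]`. -/
theorem exists_code_unary' {f : ℕ →. ℕ} (hf : Partrec f) : ∃ c : ToPartrec.Code,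
    ∀ n : ℕ, (c.eval (List.replicate (n + 1) 1)).Dom ↔ (f (n + 1)).Dom := by
  obtain ⟨c, hc⟩ := ToPartrec.Code.exists_code (n := 1) (Nat.Partrec'.part_iff₁.2 hf)
  refine ⟨.comp c (.comp (.fix body) .zero'), fun n => ?_⟩
  have h1 : (ToPartrec.Code.comp c (.comp (.fix body) .zero')).eval
    (List.replicate (n + 1) 1) = c.eval [n + 1] := by
    have h2 : (ToPartrec.Code.fix body).eval (0 :: List.replicate (n + 1) 1) =
        Part.some [n + 1] := by
      have := fix_body (n + 1) 0
      rw [Nat.zero_add] at this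
      exact this
    rw [ToPartrec.Code.comp_eval, ToPartrec.Code.comp_eval, ToPartrec.Code.zero'_eval]
    show ((Part.some (0 :: List.replicate (n + 1) 1)).bind
      (fun v => (ToPartrec.Code.fix body).eval v)).bind (fun v => c.eval v) = _
    rw [Part.bind_some, h2]
    exact Part.bind_some _ _
  rw [h1]
  have h3 := hc ⟨[n + 1], rfl⟩
  have h4 : c.eval [n + 1] = pure <$> f (n + 1) := h3
  rw [h4]
  rfl

/-- A Turing machine with finitely many states and letters which halts on `x y (w y)^n` if and only
if `f (n + 1)` is defined. -/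
theorem exists_TM0' {f : ℕ →. ℕ} (hf : Partrec f) :
    ∃ (Γ Λ : Type) (_ : Inhabited Γ) (_ : Fintype Γ) (_ : Inhabited Λ)
    (M : TM0.Machine Γ Λ) (S : Finset Λ) (x y w : Γ), TM0.Supports M (↑S : Set Λ) ∧
      ∀ n : ℕ, (StateTransition.eval (TM0.step M)
        (TM0.init (x :: y :: (List.replicate n [w, y]).flatten))).Dom ↔ (f (n + 1)).Dom := by
  classical
  obtain ⟨c, hc⟩ := exists_code_unary' hf
  let k0 : PartrecToTM2.Cont' := .halt
  letI i0 : Inhabited PartrecToTM2.Λ' := ⟨PartrecToTM2.trNormal c k0⟩
  let G : PartrecToTM2.K' → Type := fun _ => PartrecToTM2.Γ'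
  let M2 : PartrecToTM2.Λ' → TM2.Stmt G PartrecToTM2.Λ' (Option PartrecToTM2.Γ') := PartrecToTM2.tr
  let M1 := TM2to1.tr M2
  let M0 := TM1to0.tr M1
  have hs2 : TM2.Supports M2 (PartrecToTM2.codeSupp c k0) := PartrecToTM2.tr_supports c k0
  have hs1 := TM2to1.tr_supports (M := M2) hs2
  have hs0 := TM1to0.tr_supports (M := M1) hs1
  refine ⟨TM2to1.Γ' PartrecToTM2.K' G, TM1to0.Λ' M1, inferInstance, inferInstance, inferInstance,
    M0, _, cell true PartrecToTM2.K'.main .cons, cell false PartrecToTM2.K'.main .bit1,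
    cell false PartrecToTM2.K'.main .cons, hs0, ?_⟩
  intro n
  rw [← hc n]
  have hl : TM2to1.trInit (K := PartrecToTM2.K') (Γ := G) PartrecToTM2.K'.main
      (PartrecToTM2.trList (List.replicate (n + 1) 1)) =
      cell true PartrecToTM2.K'.main .cons :: cell false PartrecToTM2.K'.main .bit1 ::
        (List.replicate n [cell false PartrecToTM2.K'.main .cons,
          cell false PartrecToTM2.K'.main .bit1]).flatten := by
    rw [trList_replicate]
    exact trInit_eq (G := G) PartrecToTM2.K'.main .cons .bit1 n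
  have e1 : ∀ l, (StateTransition.eval (TM0.step M0) (TM0.init l)).Dom ↔
      (TM1.eval M1 l).Dom := by
    intro l
    rw [← TM1to0.tr_eval]
    rfl
  have e2 : ∀ l : List (G .main), (TM1.eval M1 (TM2to1.trInit .main l)).Dom ↔
      (TM2.eval M2 .main l).Dom := fun l => TM2to1.tr_eval_dom M2 .main l
  have e3 : (TM2.eval M2 .main (PartrecToTM2.trList (List.replicate (n + 1) 1))).Dom ↔
      (StateTransition.eval (TM2.step PartrecToTM2.tr)
        (PartrecToTM2.init c (List.replicate (n + 1) 1))).Dom := by
    have : (TM2.init .main (PartrecToTM2.trList (List.replicate (n + 1) 1)) :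
        TM2.Cfg G PartrecToTM2.Λ' (Option PartrecToTM2.Γ')) =
        PartrecToTM2.init c (List.replicate (n + 1) 1) := by
      unfold TM2.init PartrecToTM2.init
      congr 1
      funext k
      cases k <;> rfl
    unfold TM2.eval
    rw [this]
    rfl
  rw [PartrecToTM2.tr_eval] at e3
  have e4 : (PartrecToTM2.halt <$> c.eval (List.replicate (n + 1) 1)).Dom ↔
      (c.eval (List.replicate (n + 1) 1)).Dom := Iff.rfl
  rw [← e4, ← e3, ← e2, ← e1, hl]

end Pool.Agent.Work.MP_567c26_al_helper68
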